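import Pool.Agent.N204.HJ.Stm2
import Pool.Agent.N134.HR.F1
import Pool.Agent.N603.HR.F3
import Pool.Agent.N498.HR.F4

/-!
# HJ/NB: nilpotent polynomials in the Frobenius are numerically trivial (project of helper204)
-/

set_option linter.unusedSectionVars false

open CategoryTheory AlgebraicGeometry TensorProduct

universe u

namespace Pool.Agent.N955.HJ

open Module
open Pool.Agent.H914 Pool.Agent.H914.VarClass Pool.Agent.H914.VarClass.Obj
  Pool.Agent.H914.WeilCohomology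
open Pool.Agent.Y133.Half (pw pfst psnd PH xp xp_induction xp_def)
open Pool.Agent.N996.BP (IsCoordinateMap)
open Pool.Agent.N211.BT (isCoord_fst isCoord_snd)
open Pool.Agent.N204.HR (FrobK)
open Pool.Agent.N204.HJ (graph S_NB)

/-- induction for the polynomials in an operator -/
lemma aeval_ind {K V : Type} [Field K] [AddCommGroup V] [Module K V] (F : Module.End K V)
    (Q : Module.End K V → Prop) (hadd : ∀ a b, Q a → Q b → Q (a + b))
    (hsmul : ∀ (c : K) a, Q a → Q (c • a)) (h1 : Q 1) (hF : ∀ a, Q a → Q (F * a))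
    (P : Polynomial K) : Q (Polynomial.aeval F P) := by
  have hp : ∀ r : ℕ, Q (F ^ r) := by
    intro r
    induction r with
    | zero => rw [pow_zero]; exact h1
    | succ r ih => rw [pow_succ']; exact hF _ ih
  have h0 : Q 0 := by
    have := hsmul 0 1 h1
    rwa [zero_smul] at this
  rw [Polynomial.aeval_eq_sum_range]
  exact Finset.sum_induction _ Q hadd h0 fun r _ => hsmul _ _ (hp r)

/-- averages of a periodic vector -/
lemma average {K V : Type} [Field K] [AddCommGroup V] [Module K V] (L : Module.End K V) (α : K)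
    (hα : α ≠ 0) (c : V) (m : ℕ) (hc : (L ^ m) c = α ^ m • c) :
    L (∑ i ∈ Finset.range m, (α⁻¹) ^ i • (L ^ i) c) =
      α • ∑ i ∈ Finset.range m, (α⁻¹) ^ i • (L ^ i) c := by
  have h1 : ∀ i, L ((α⁻¹) ^ i • (L ^ i) c) = α • ((α⁻¹) ^ (i + 1) • (L ^ (i + 1)) c) := by
    intro i
    rw [map_smul, smul_smul, pow_succ' L, Module.End.mul_apply]
    congr 1
    rw [pow_succ]
    field_simp
  rw [map_sum, Finset.sum_congr rfl fun i _ => h1 i, ← Finset.smul_sum]
  congr 1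
  have h2 := Finset.sum_range_succ (fun i => (α⁻¹) ^ i • (L ^ i) c) m
  have h3 := Finset.sum_range_succ' (fun i => (α⁻¹) ^ i • (L ^ i) c) m
  have h4 : (α⁻¹) ^ m • (L ^ m) c = (α⁻¹) ^ 0 • (L ^ 0) c := by
    rw [hc, smul_smul, ← mul_pow, inv_mul_cancel₀ hα, one_pow, pow_zero, pow_zero, one_smul,
      one_smul, Module.End.one_apply]
  rw [h2, h4] at h3
  exact (add_right_cancel h3).symm

section Core

variable {k : Type u} [Field k] {𝒱 : VarClass k} {ops : CycleOps 𝒱}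
  (W : WeilCohomology.{u, 0} ops) {X : 𝒱.Obj} (q : ℕ) (Φ0 : W.H X → W.H X)
  (Φ1 : W.H (X.prod X) → W.H (X.prod X))

/-- the operator `1 ⊗ u` commutes with the Frobenius -/
lemma ext_comm (add1 : ∀ x y, Φ1 (x + y) = Φ1 x + Φ1 y)
    (mul1 : ∀ x y, Φ1 (x * y) = Φ1 x * Φ1 y)
    (m1 : ∀ x, Φ1 (W.map (fst X X) x) = W.map (fst X X) (Φ0 x))
    (m2 : ∀ x, Φ1 (W.map (snd X X) x) = W.map (snd X X) (Φ0 x))
    (v : Module.End W.K (W.H X)) (hv : ∀ x, Φ0 (v x) = v (Φ0 x)) (w : W.H (X.prod X)) :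
    Φ1 (extOp W (1 : Module.End W.K (W.H X)) v w) =
      extOp W (1 : Module.End W.K (W.H X)) v (Φ1 w) := by
  refine xp_induction (p := fun w => Φ1 (extOp W (1 : Module.End W.K (W.H X)) v w) =
      extOp W (1 : Module.End W.K (W.H X)) v (Φ1 w)) ?_ ?_ w
  · intro a b ha hb
    rw [map_add, add1, ha, hb, add1, map_add]
  · intro i j a _ b _
    rw [xp_def, extOp_tmul, mul1, m1, m2, mul1, m1, m2, extOp_tmul, hv]
    rfl

/-- the class of the diagonal -/
lemma diag_frob (mul0 : ∀ x y, Φ0 (x * y) = Φ0 x * Φ0 y) (mul1 : ∀ x y, Φ1 (x * y) = Φ1 x * Φ1 y)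
    (md : ∀ x, Φ0 (W.map (diag X) x) = W.map (diag X) (Φ1 x))
    (tr0 : ∀ x, W.tr X (Φ0 x) = (q : W.K) ^ X.dim * W.tr X x)
    (tr1 : ∀ x, W.tr (X.prod X) (Φ1 x) = (q : W.K) ^ (X.dim + X.dim) * W.tr (X.prod X) x)
    (bij : Function.Surjective Φ1) :
    Φ1 (W.push (diag X) 1) = (q : W.K) ^ X.dim • W.push (diag X) (1 : W.H X) := by
  apply W.tr_ext
  intro z
  obtain ⟨z', rfl⟩ := bij z
  rw [← mul1, tr1, W.tr_push, smul_mul_assoc, map_smul, W.tr_push, one_mul, one_mul, ← md, tr0,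
    smul_eq_mul, pow_add, mul_assoc]

/-- the core of the proof -/
theorem core [CharZero W.K] (hq : (q : W.K) ≠ 0) (add0 : ∀ x y, Φ0 (x + y) = Φ0 x + Φ0 y)
    (smul0 : ∀ (c : W.K) x, Φ0 (c • x) = c • Φ0 x)
    (add1 : ∀ x y, Φ1 (x + y) = Φ1 x + Φ1 y) (smul1 : ∀ (c : W.K) x, Φ1 (c • x) = c • Φ1 x)
    (mul0 : ∀ x y, Φ0 (x * y) = Φ0 x * Φ0 y) (mul1 : ∀ x y, Φ1 (x * y) = Φ1 x * Φ1 y)
    (gr0 : ∀ i, ∀ x ∈ W.gr X i, Φ0 x ∈ W.gr X i)
    (gr1 : ∀ i, ∀ x ∈ W.gr (X.prod X) i, Φ1 x ∈ W.gr (X.prod X) i)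
    (m1 : ∀ x, Φ1 (W.map (fst X X) x) = W.map (fst X X) (Φ0 x))
    (m2 : ∀ x, Φ1 (W.map (snd X X) x) = W.map (snd X X) (Φ0 x))
    (md : ∀ x, Φ0 (W.map (diag X) x) = W.map (diag X) (Φ1 x))
    (ms : ∀ x, Φ1 (W.map (swap X X) x) = W.map (swap X X) (Φ1 x))
    (tr0 : ∀ x, W.tr X (Φ0 x) = (q : W.K) ^ X.dim * W.tr X x)
    (tr1 : ∀ x, W.tr (X.prod X) (Φ1 x) = (q : W.K) ^ (X.dim + X.dim) * W.tr (X.prod X) x)
    (bij1 : Function.Surjective Φ1)
    (h3 : ∀ c : W.H (X.prod X), Φ1 c = (q : W.K) ^ X.dim • c → ∀ a,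
      Φ0 (W.corr c a) = W.corr c (Φ0 a))
    (F : Module.End W.K (W.H X)) (hF : ∀ x, F x = Φ0 x) (c : W.H (X.prod X))
    (hc0 : c ∈ W.gr (X.prod X) (2 * X.dim)) (m : ℕ) (hm : 0 < m)
    (hc : Φ1^[m] c = (q : W.K) ^ (X.dim * m) • c) (P : Polynomial W.K)
    (hP : IsNilpotent (Polynomial.aeval F P)) :
    W.tr (X.prod X) (c * extOp W (1 : Module.End W.K (W.H X)) (Polynomial.aeval F P)
      (W.push (diag X) 1)) = 0 := by
  -- the polynomial in the Frobenius
  have hgr : ∀ i, ∀ x ∈ W.gr X i, (Polynomial.aeval F P) x ∈ W.gr X i := by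
    refine aeval_ind F (fun a => ∀ i, ∀ x ∈ W.gr X i, a x ∈ W.gr X i) ?_ ?_ ?_ ?_ P
    · intro a b ha hb i x hx
      rw [LinearMap.add_apply]
      exact Submodule.add_mem _ (ha i x hx) (hb i x hx)
    · intro r a ha i x hx
      rw [LinearMap.smul_apply]
      exact Submodule.smul_mem _ _ (ha i x hx)
    · intro i x hx
      exact hx
    · intro a ha i x hx
      rw [Module.End.mul_apply, hF]
      exact gr0 i _ (ha i x hx)
  have hcom : ∀ T : Module.End W.K (W.H X), (∀ x, Φ0 (T x) = T (Φ0 x)) →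
      ∀ x, (Polynomial.aeval F P) (T x) = T ((Polynomial.aeval F P) x) := by
    intro T hT
    refine aeval_ind F (fun a => ∀ x, a (T x) = T (a x)) ?_ ?_ ?_ ?_ P
    · intro a b ha hb x
      rw [LinearMap.add_apply, ha, hb, LinearMap.add_apply, map_add]
    · intro r a ha x
      rw [LinearMap.smul_apply, ha, LinearMap.smul_apply, map_smul]
    · intro x
      rfl
    · intro a ha x
      rw [Module.End.mul_apply, ha, hF, hT, ← hF, Module.End.mul_apply]
  have hFc : ∀ x, Φ0 ((Polynomial.aeval F P) x) = (Polynomial.aeval F P) (Φ0 x) := by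
    intro x
    have h := hcom F (fun x => by rw [hF, hF]) x
    rw [hF, hF] at h
    exact h.symm
  set v := Polynomial.aeval F P with hv
  set e := extOp W (1 : Module.End W.K (W.H X)) v (W.push (diag X) 1) with he
  have hΦe : Φ1 e = (q : W.K) ^ X.dim • e := by
    rw [he, ext_comm W Φ0 Φ1 add1 mul1 m1 m2 v hFc, diag_frob W q Φ0 Φ1 mul0 mul1 md tr0 tr1 bij1,
      map_smul]
  have hα : (q : W.K) ^ X.dim ≠ 0 := pow_ne_zero _ hq
  have hte : ∀ x, W.tr (X.prod X) (Φ1 x * e) = (q : W.K) ^ X.dim * W.tr (X.prod X) (x * e) := by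
    intro x
    have h := tr1 (x * e)
    rw [mul1, hΦe, mul_smul_comm, map_smul, smul_eq_mul, pow_add, mul_assoc] at h
    exact mul_left_cancel₀ hα h
  -- the linear map
  obtain ⟨L, hL⟩ : ∃ L : Module.End W.K (W.H (X.prod X)), ∀ x, L x = Φ1 x :=
    ⟨{ toFun := Φ1, map_add' := add1, map_smul' := smul1 }, fun _ => rfl⟩
  have hLi : ∀ (i : ℕ) (x : W.H (X.prod X)), (L ^ i) x = Φ1^[i] x := by
    intro i
    induction i with
    | zero => intro x; rfl
    | succ i ih =>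
      intro x
      rw [pow_succ', Module.End.mul_apply, ih, hL, Function.iterate_succ_apply']
  set α := (q : W.K) ^ X.dim with hαd
  have hLc : (L ^ m) c = α ^ m • c := by
    rw [hLi, hc, hαd, ← pow_mul]
  have hav := average L α hα c m hLc
  set c' := ∑ i ∈ Finset.range m, (α⁻¹) ^ i • (L ^ i) c with hc'
  have hc'1 : Φ1 c' = α • c' := by rw [← hL, hav]
  have hc'gr : c' ∈ W.gr (X.prod X) (2 * X.dim) := by
    have hit : ∀ i : ℕ, Φ1^[i] c ∈ W.gr (X.prod X) (2 * X.dim) := by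
      intro i
      induction i with
      | zero => exact hc0
      | succ i ih => rw [Function.iterate_succ_apply']; exact gr1 _ _ ih
    rw [hc']
    refine Submodule.sum_mem _ fun i _ => Submodule.smul_mem _ _ ?_
    rw [hLi]
    exact hit i
  have htr : W.tr (X.prod X) (c' * e) = (m : W.K) * W.tr (X.prod X) (c * e) := by
    have h1 : ∀ i : ℕ, W.tr (X.prod X) ((α⁻¹) ^ i • (L ^ i) c * e) =
        W.tr (X.prod X) (c * e) := by
      intro i
      rw [smul_mul_assoc, map_smul, smul_eq_mul, hLi]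
      induction i with
      | zero => rw [pow_zero, one_mul]; rfl
      | succ i ih =>
        rw [Function.iterate_succ_apply', hte, ← ih, pow_succ]
        field_simp
    rw [hc', Finset.sum_mul, map_sum, Finset.sum_congr rfl fun i _ => h1 i, Finset.sum_const,
      Finset.card_range, nsmul_eq_mul]
  have hsw : Φ1 (W.map (swap X X) c') = α • W.map (swap X X) c' := by
    rw [ms, hc'1, map_smul]
  have hcorr := hcom (W.corr (W.map (swap X X) c')) (h3 _ hsw)
  have h4 := (Pool.Agent.N498.HR.f4 k 𝒱 ops W X v hgr).1 hP c' hc'gr hcorr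
  rw [← he, htr] at h4
  exact (mul_eq_zero.1 h4).resolve_left (Nat.cast_ne_zero.2 hm.ne')

end Core

lemma isCoord_swap {k : Type u} [Field k] {𝒱 : VarClass k} (X : 𝒱.Obj) :
    IsCoordinateMap (X := X) (n := 1) (m := 1) (show pw X 1 ⟶ pw X 1 from swap X X) := by
  have h0 : swap X X ≫ fst X X = snd X X := Obj.lift_fst _ _
  have h1 : swap X X ≫ snd X X = fst X X := Obj.lift_snd _ _
  intro i hi
  obtain rfl | rfl : i = 0 ∨ i = 1 := by omega
  · refine ⟨1, le_rfl, ?_⟩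
    change swap X X ≫ (fst X X ≫ 𝟙 X) = snd X X
    rw [Category.comp_id, h0]
  · refine ⟨0, Nat.zero_le _, ?_⟩
    change swap X X ≫ snd X X = fst X X ≫ 𝟙 X
    rw [Category.comp_id, h1]

lemma isCoord_diag {k : Type u} [Field k] {𝒱 : VarClass k} (X : 𝒱.Obj) :
    IsCoordinateMap (X := X) (n := 1) (m := 0) (show pw X 0 ⟶ pw X 1 from diag X) := by
  have h0 : diag X ≫ fst X X = 𝟙 X := Obj.lift_fst _ _
  have h1 : diag X ≫ snd X X = 𝟙 X := Obj.lift_snd _ _
  intro i hi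
  obtain rfl | rfl : i = 0 ∨ i = 1 := by omega
  · refine ⟨0, le_rfl, ?_⟩
    change diag X ≫ (fst X X ≫ 𝟙 X) = 𝟙 X
    rw [Category.comp_id, h0]
  · refine ⟨0, Nat.zero_le _, ?_⟩
    change diag X ≫ snd X X = 𝟙 X
    exact h1

/-- **Task NB** -/
theorem nb : S_NB.{u} := by
  intro k _ 𝒱 ops W X q Φ hΦ F hF c hc0 m hm hc P hP
  obtain ⟨t1, t2, -⟩ := Pool.Agent.N134.HR.f1 k 𝒱 ops W X q Φ hΦ
  have hq : (q : W.K) ≠ 0 := by
    have := hΦ.q_pos
    exact_mod_cast this.ne'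
  exact core W q (Φ 0) (Φ 1) hq (hΦ.add 0) (hΦ.smul 0) (hΦ.add 1) (hΦ.smul 1) (hΦ.mul 0) (hΦ.mul 1)
    (fun i x hx => hΦ.gr 0 i x hx) (fun i x hx => hΦ.gr 1 i x hx)
    (fun x => hΦ.map 0 1 (pfst X 0) (isCoord_fst 0) x)
    (fun x => hΦ.map 0 1 (psnd X 0) (isCoord_snd 0) x)
    (fun x => hΦ.map 1 0 (diag X) (isCoord_diag X) x)
    (fun x => hΦ.map 1 1 (swap X X) (isCoord_swap X) x)
    (fun x => t1 0 x) (fun x => t1 1 x) (t2 1).2
    (fun d hd a => by
      have h := Pool.Agent.N603.HRF3.f3 Pool.Agent.N134.HR.f1 k 𝒱 ops W X q Φ hΦ d 1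
        (by rw [mul_one]; exact hd) a
      exact h)
    F hF c hc0 m hm hc P hP

end Pool.Agent.N955.HJ
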